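import Pool.Agent.H69.THN.BO1
import Pool.Agent.H20.THN.OC1

/-!
Board thn (MP_52e316_nt), row BO1 without hypotheses.
-/

set_option autoImplicit false

namespace Pool.Agent.H69.THN

theorem c_BO1 : Pool.Agent.H47.THN.T_BO1 :=
  pf_BO1 Pool.Agent.H27.L1.H23.GA.All.c_BIA Pool.Agent.H27.L1.H34.GZ.a_DYM
    Pool.Agent.H27.L1.H23.GHY.All.c_KMD Pool.Agent.H27.L1.H23.GHY.All.c_MSD
    Pool.Agent.H20.THN.c_KC1 Pool.Agent.H20.THN.c_KM1 Pool.Agent.H20.THN.c_OC1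

end Pool.Agent.H69.THN
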